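import Pool.Agent.SHA.Stmts

set_option autoImplicit false

namespace Pool.Agent.SHA.H90

open Pool.Agent.SHA

theorem ratio_bd {s : ℕ} {n : ℕ∞} (hs : 1 ≤ s) (hn : (s : ℕ∞) ≤ n) :
    0 ≤ ratio s n ∧ ratio s n ≤ 1 := by
  unfold ratio
  split_ifs with h
  · exact ⟨le_rfl, zero_le_one⟩
  · lift n to ℕ using h
    have h1 : s ≤ n := by exact_mod_cast hn
    have h2 : (0 : ℝ) < n := by exact_mod_cast (by omega : 0 < n)
    rw [ENat.toNat_natCast]
    exact ⟨by positivity, (div_le_one h2).2 (by exact_mod_cast h1)⟩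

theorem theta_bd {a b : ℝ} (a0 : 0 ≤ a) (a1 : a ≤ 1) (b0 : 0 ≤ b) (b1 : b ≤ 1) :
    0 ≤ (1 - a) * (1 - b) / (1 - a * b) ∧ (1 - a) * (1 - b) / (1 - a * b) ≤ 1 - a := by
  have h1 : a * b ≤ 1 := mul_le_one₀ a1 b0 b1
  constructor
  · exact div_nonneg (mul_nonneg (by linarith) (by linarith)) (by linarith)
  · rcases h1.lt_or_eq with h | h
    · rw [div_le_iff₀ (by linarith)]
      refine mul_le_mul_of_nonneg_left ?_ (by linarith)
      nlinarith
    · rw [h]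
      simp only [sub_self, div_zero]
      linarith

theorem lead_le {s : ℕ} {n₁ n₂ : ℕ∞} (hs : 1 ≤ s) (h1 : (s : ℕ∞) ≤ n₁) (h2 : (s : ℕ∞) ≤ n₂)
    (N : ℕ) (hN : n₁ = N) : lead s n₁ n₂ ≤ N := by
  obtain ⟨a0, a1⟩ := ratio_bd hs h1
  obtain ⟨b0, b1⟩ := ratio_bd hs h2
  have h := (theta_bd a0 a1 b0 b1).2
  have hs' : (0 : ℝ) < s := by exact_mod_cast hs
  have hNs : s ≤ N := by
    rw [hN] at h1
    exact_mod_cast h1
  have hN0 : (0 : ℝ) < N := by exact_mod_cast (by omega : 0 < N)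
  have e : ratio s n₁ = (s : ℝ) / N := by rw [hN, ratio_coe]
  unfold lead
  have h3 : theta s n₁ n₂ ≤ 1 - (s : ℝ) / N := by
    rw [← e]; exact h
  calc (s : ℝ) * (1 + theta s n₁ n₂) ≤ s * (1 + (1 - (s : ℝ) / N)) :=
        mul_le_mul_of_nonneg_left (by linarith) hs'.le
    _ ≤ N := by
      have e2 : (s : ℝ) * (1 + (1 - (s : ℝ) / N)) = N - (N - s) ^ 2 / N := by
        field_simp
        ring
      rw [e2]
      have : 0 ≤ ((N : ℝ) - s) ^ 2 / N := by positivity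
      linarith

theorem bas : BASStmt := by
  intro s n₁ n₂ hs h1 h2
  obtain ⟨a0, a1⟩ := ratio_bd hs h1
  obtain ⟨b0, b1⟩ := ratio_bd hs h2
  have h := theta_bd a0 a1 b0 b1
  refine ⟨h.1, h.2.trans (by linarith), fun N hN => lead_le hs h1 h2 N hN, fun N hN => ?_⟩
  rw [lead_comm]
  exact lead_le hs h2 h1 N hN

end Pool.Agent.SHA.H90
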