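import Pool.Agent.SHA.Stmts

set_option autoImplicit false

namespace Pool.Agent.SHA.H90

open Pool.Agent.SHA

theorem nm1 : NM1Stmt := by
  intro y hy
  have h1 : y / 4 * Real.exp 1 ≤ Real.exp (y / 4) := by
    have h := Real.add_one_le_exp (y / 4 - 1)
    have e : Real.exp (y / 4) = Real.exp (y / 4 - 1) * Real.exp 1 := by
      rw [← Real.exp_add]; ring_nf
    rw [e]
    exact mul_le_mul_of_nonneg_right (by linarith) (Real.exp_pos 1).le
  have h2 : (y / 4 * Real.exp 1) ^ 4 ≤ Real.exp (y / 4) ^ 4 :=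
    pow_le_pow_left₀ (by positivity) h1 4
  have e2 : Real.exp (y / 4) ^ 4 = Real.exp y := by
    rw [← Real.exp_nat_mul]; ring_nf
  rw [e2] at h2
  have h3 : y ^ 4 * Real.exp 1 ^ 4 ≤ 256 * Real.exp y := by nlinarith
  have e3 : Real.exp (-y - 1) = (Real.exp y * Real.exp 1)⁻¹ := by
    rw [← Real.exp_add, ← Real.exp_neg]; ring_nf
  rw [e3, ← div_eq_mul_inv, div_le_iff₀ (by positivity)]
  have h5 := Real.exp_one_gt_d9
  have h6 : (148 : ℝ) ≤ Real.exp 1 ^ 5 := by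
    calc (148 : ℝ) ≤ 2.7182818283 ^ 5 := by norm_num
      _ ≤ _ := pow_le_pow_left₀ (by norm_num) h5.le 5
  have h7 : 0 < Real.exp 1 ^ 4 := by positivity
  have hy0 := Real.exp_pos y
  -- multiply by `exp 1 ^ 4`
  refine le_of_mul_le_mul_right (?_ : y ^ 4 * Real.exp 1 ^ 4 ≤ _ * Real.exp 1 ^ 4) h7
  refine h3.trans ?_
  have e4 : 1.73 * (Real.exp y * Real.exp 1) * Real.exp 1 ^ 4 =
    Real.exp y * (1.73 * Real.exp 1 ^ 5) := by ring
  rw [e4, mul_comm]
  refine mul_le_mul_of_nonneg_left ?_ hy0.le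
  nlinarith

end Pool.Agent.SHA.H90
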