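import Pool.Agent.SHA.Stmts

set_option autoImplicit false

namespace Pool.Agent.SHA.H90

open Pool.Agent.SHA

theorem nm2 : NM2Stmt := by
  constructor
  · intro s y hs hy h
    have hs' : (34 : ℝ) ≤ s := by exact_mod_cast hs
    have h1 : (2 * y ^ 2) ^ 3 ≤ ((s : ℝ) - 1) ^ 3 := by
      have e : (2 * y ^ 2) ^ 3 = 8 * (y ^ 3) ^ 2 := by ring
      rw [e]
      have h2 : (y ^ 3) ^ 2 ≤ (s : ℝ) ^ 2 := pow_le_pow_left₀ (by positivity) h 2
      nlinarith [mul_nonneg (sub_nonneg.2 hs') (sq_nonneg (s : ℝ)),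
        mul_nonneg (sub_nonneg.2 hs') (by linarith : (0 : ℝ) ≤ s)]
    exact le_of_pow_le_pow_left₀ (by norm_num) (by linarith) h1
  · intro s k y θ hs hk hy hyk hθ
    have hs' : (34 : ℝ) ≤ s := by exact_mod_cast hs
    have hk' : (23 : ℝ) ≤ k := by exact_mod_cast hk
    have hs0 : (0 : ℝ) < s := by linarith
    have hy1 : 2.84 ≤ y := by
      by_contra hc
      push Not at hc
      have : y ^ 3 < 2.84 ^ 3 := pow_lt_pow_left₀ hc hy (by norm_num)
      rw [hyk] at this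
      norm_num at this
      linarith
    obtain ⟨t, ht⟩ : ∃ t, y = 2.84 + t := ⟨y - 2.84, by ring⟩
    have ht0 : 0 ≤ t := by linarith
    have hA : 0 < y ^ 3 - 1 - 2 * y ^ 2 := by
      rw [ht]
      nlinarith [mul_nonneg ht0 ht0, mul_nonneg (mul_nonneg ht0 ht0) ht0]
    have hB : 0 < y ^ 3 - 1 := by nlinarith [sq_nonneg y]
    set P := (y ^ 3 - 1) * (y ^ 3 - 1 - 2 * y ^ 2) with hP
    have hP0 : 0 < P := mul_pos hB hA
    -- the left side
    have h1 : (1 + θ) * (1 + 2 * y ^ 2) - θ * k + 1.73 ≤ 2 * y ^ 2 + 2.73 - P / s := by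
      have e : (1 + θ) * (1 + 2 * y ^ 2) - θ * k + 1.73 =
        2 * y ^ 2 + 2.73 - θ * (y ^ 3 - 1 - 2 * y ^ 2) := by
        rw [← hyk]; ring
      rw [e]
      have h2 : (y ^ 3 - 1) / s * (y ^ 3 - 1 - 2 * y ^ 2) ≤ θ * (y ^ 3 - 1 - 2 * y ^ 2) := by
        refine mul_le_mul_of_nonneg_right ?_ hA.le
        rw [hyk]; exact hθ
      have e2 : (y ^ 3 - 1) / s * (y ^ 3 - 1 - 2 * y ^ 2) = P / s := by rw [hP]; ring
      linarith
    refine h1.trans ?_
    -- AM-GM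
    set r := √(s : ℝ) with hr
    have hr0 : 0 < r := Real.sqrt_pos.2 hs0
    have hrs : r ^ 2 = s := Real.sq_sqrt hs0.le
    have hPs : P / s = P / r ^ 2 := by rw [hrs]
    set v := P / s with hv
    have hv0 : 0 < v := div_pos hP0 hs0
    have huv : (2 * r) ^ 2 * v = 4 * P := by
      rw [hv, ← hrs]
      field_simp
      ring
    have h3 : 27 * (4 * P) ≤ (2 * (2 * r) + v) ^ 3 := by
      rw [← huv]
      have : (2 * (2 * r) + v) ^ 3 - 27 * ((2 * r) ^ 2 * v) = (v - 2 * r) ^ 2 * (8 * (2 * r) + v) := by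
        ring
      have h4 : 0 ≤ (v - 2 * r) ^ 2 * (8 * (2 * r) + v) := by positivity
      linarith
    have h5 : (2 * y ^ 2 + 2.73) ^ 3 ≤ 27 * (4 * P) := by
      rw [hP, ht]
      have e : 27 * (4 * (((2.84 + t) ^ 3 - 1) * ((2.84 + t) ^ 3 - 1 - 2 * (2.84 + t) ^ 2))) -
        (2 * (2.84 + t) ^ 2 + 2.73) ^ 3 ≥ 0 := by
        ring_nf
        positivity
      linarith
    have h6 : 2 * y ^ 2 + 2.73 ≤ 2 * (2 * r) + v :=
      le_of_pow_le_pow_left₀ (by norm_num) (by positivity) (h5.trans h3)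
    linarith

end Pool.Agent.SHA.H90
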