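import Pool.Agent.SHA.Stmts

set_option autoImplicit false

namespace Pool.Agent.SHA.H90

open Pool.Agent.SHA

universe u

open Classical in
theorem sum_ind {U : Type u} (A B : Finset U) (a : ℝ) :
    ∑ f ∈ A, (if f ∈ B then a else 0) = a * ((A ∩ B).card : ℝ) := by
  rw [← Finset.sum_filter, Finset.sum_const, nsmul_eq_mul, mul_comm, Finset.filter_mem_eq_inter]

theorem ptx : PTXStmt.{u} := by
  classical
  intro U s S₁ S₂ W Q c hs h1 h2 h12 hc0 hc1 hQ
  set N := (S₁.card : ℝ) with hN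
  set M := (S₂.card : ℝ) with hM
  have hs' : (1 : ℝ) ≤ s := by exact_mod_cast hs
  have hN1 : (s : ℝ) ≤ N := by rw [hN]; exact_mod_cast h1
  have hM1 : (s : ℝ) ≤ M := by rw [hM]; exact_mod_cast h2
  have hD : 0 < N * M - (s : ℝ) ^ 2 := by
    have : ((s ^ 2 : ℕ) : ℝ) < ((S₁.card * S₂.card : ℕ) : ℝ) := by exact_mod_cast h12
    push_cast at this
    linarith
  set D := N * M - (s : ℝ) ^ 2 with hDdef
  set p₁ := s * (M - s) / D with hp1
  set p₂ := s * (N - s) / D with hp2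
  have p1 : 0 ≤ p₁ := div_nonneg (mul_nonneg (by linarith) (by linarith)) hD.le
  have p2 : 0 ≤ p₂ := div_nonneg (mul_nonneg (by linarith) (by linarith)) hD.le
  have hth : theta s (S₁.card : ℕ∞) (S₂.card : ℕ∞) = ((N - s) * (M - s)) / D := by
    rw [theta_coe hs h1 h2]
  have i1 : p₁ * s + p₂ * M = s := by
    rw [hp1, hp2]; field_simp; rw [hDdef]; ring
  have i2 : p₁ * N + p₂ * s = s := by
    rw [hp1, hp2]; field_simp; rw [hDdef]; ring
  have i4 : p₁ + p₂ = 1 - theta s (S₁.card : ℕ∞) (S₂.card : ℕ∞) := by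
    rw [hth, hp1, hp2]; field_simp; rw [hDdef]; ring
  have i3 : p₁ * N + p₂ * M = lead s (S₁.card : ℕ∞) (S₂.card : ℕ∞) := by
    unfold lead
    rw [hth, hp1, hp2]; field_simp; rw [hDdef]; ring
  have th0 : 0 ≤ theta s (S₁.card : ℕ∞) (S₂.card : ℕ∞) := by
    rw [hth]
    exact div_nonneg (mul_nonneg (by linarith) (by linarith)) hD.le
  have h0 : ∀ (f : U) (A : Finset U) (a : ℝ), 0 ≤ a → 0 ≤ (if f ∈ A then a else 0) ∧
      (if f ∈ A then a else 0) ≤ a := by
    intro f A a ha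
    split_ifs <;> constructor <;> linarith
  refine ⟨fun f => c * ((if f ∈ S₁ then p₁ else 0) + (if f ∈ S₂ then p₂ else 0)), ?_, ?_, ?_⟩
  · intro f
    obtain ⟨a1, a2⟩ := h0 f S₁ p₁ p1
    obtain ⟨b1, b2⟩ := h0 f S₂ p₂ p2
    refine ⟨mul_nonneg hc0 (by linarith), ?_⟩
    exact mul_le_one₀ hc1 (by linarith) (by linarith)
  · intro O hO
    rw [← Finset.mul_sum]
    refine mul_le_mul_of_nonneg_left ?_ hc0
    rw [Finset.sum_add_distrib, sum_ind, sum_ind]
    set A := ((S₁ ∪ S₂) \ W).filter (fun f => f ∈ O)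
    have c1 : (A ∩ S₁).card ≤ (S₁.filter (fun f => f ∈ O)).card := by
      refine Finset.card_le_card fun f hf => ?_
      rw [Finset.mem_inter, Finset.mem_filter] at hf
      exact Finset.mem_filter.2 ⟨hf.2, hf.1.2⟩
    have c2 : (A ∩ S₂).card ≤ (S₂.filter (fun f => f ∈ O)).card := by
      refine Finset.card_le_card fun f hf => ?_
      rw [Finset.mem_inter, Finset.mem_filter] at hf
      exact Finset.mem_filter.2 ⟨hf.2, hf.1.2⟩
    have d1 : ((A ∩ S₁).card : ℝ) ≤ N := by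
      rw [hN]; exact_mod_cast Finset.card_le_card Finset.inter_subset_right
    have d2 : ((A ∩ S₂).card : ℝ) ≤ M := by
      rw [hM]; exact_mod_cast Finset.card_le_card Finset.inter_subset_right
    rcases hQ O hO with h | h
    · have e1 : ((A ∩ S₁).card : ℝ) ≤ s := by exact_mod_cast c1.trans h
      calc p₁ * ((A ∩ S₁).card : ℝ) + p₂ * ((A ∩ S₂).card : ℝ) ≤ p₁ * s + p₂ * M :=
            add_le_add (mul_le_mul_of_nonneg_left e1 p1) (mul_le_mul_of_nonneg_left d2 p2)
        _ = s := i1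
    · have e1 : ((A ∩ S₂).card : ℝ) ≤ s := by exact_mod_cast c2.trans h
      calc p₁ * ((A ∩ S₁).card : ℝ) + p₂ * ((A ∩ S₂).card : ℝ) ≤ p₁ * N + p₂ * s :=
            add_le_add (mul_le_mul_of_nonneg_left d1 p1) (mul_le_mul_of_nonneg_left e1 p2)
        _ = s := i2
  · rw [← Finset.mul_sum]
    refine mul_le_mul_of_nonneg_left ?_ hc0
    rw [Finset.sum_add_distrib, sum_ind, sum_ind, ← i3, ← i4]
    have key : ∀ S : Finset U, S ⊆ S₁ ∪ S₂ →
        (S.card : ℝ) - W.card ≤ ((((S₁ ∪ S₂) \ W) ∩ S).card : ℝ) := by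
      intro S hS
      have h3 : S.card ≤ (((S₁ ∪ S₂) \ W) ∩ S).card + W.card := by
        refine (Finset.card_le_card (?_ : S ⊆ (((S₁ ∪ S₂) \ W) ∩ S) ∪ W)).trans
          (Finset.card_union_le _ _)
        intro f hf
        by_cases hw : f ∈ W
        · exact Finset.mem_union_right _ hw
        · exact Finset.mem_union_left _ (Finset.mem_inter.2 ⟨Finset.mem_sdiff.2 ⟨hS hf, hw⟩, hf⟩)
      have : (S.card : ℝ) ≤ ((((S₁ ∪ S₂) \ W) ∩ S).card : ℝ) + W.card := by exact_mod_cast h3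
      linarith
    have k1 := key S₁ Finset.subset_union_left
    have k2 := key S₂ Finset.subset_union_right
    have m1 := mul_le_mul_of_nonneg_left k1 p1
    have m2 := mul_le_mul_of_nonneg_left k2 p2
    rw [← hN] at m1
    rw [← hM] at m2
    linarith

end Pool.Agent.SHA.H90
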